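import Pool.Agent.H889R3.SA.Stmts

set_option autoImplicit false

/-! Task A3 of the H889-SA project (helper683). -/

namespace Pool.Agent.H889R3.SA

theorem a3_hh (n : ℕ) : ∀ m : ℕ, m < n → hh n m ≤ Real.log n - Real.log ((n : ℝ) - m) := by
  intro m
  induction m with
  | zero =>
    intro _
    simp [hh]
  | succ m ih =>
    intro hm
    have h1 := ih (by omega)
    unfold hh at h1 ⊢
    rw [Finset.sum_range_succ]
    have hm' : ((m : ℝ) + 1) < n := by exact_mod_cast hm
    have h2 : (0 : ℝ) < (n : ℝ) - m := by linarith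
    have h3 : (0 : ℝ) < (n : ℝ) - m - 1 := by linarith
    have h4 := Real.log_le_sub_one_of_pos (show (0 : ℝ) < ((n : ℝ) - m - 1) / ((n : ℝ) - m) by
      positivity)
    rw [Real.log_div h3.ne' h2.ne'] at h4
    have h5 : ((n : ℝ) - m - 1) / ((n : ℝ) - m) - 1 = -(1 / ((n : ℝ) - m)) := by
      field_simp
      ring
    rw [h5] at h4
    push_cast
    rw [show (n : ℝ) - (m + 1) = (n : ℝ) - m - 1 by ring]
    linarith

theorem a3_cc (N n m : ℕ) (δ : ℝ) (hδ0 : 0 < δ) (hδ : δ ≤ 1 / 2) (hn : 4 * N ^ 2 + 4 ≤ n)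
    (hm : (1 - δ) * n ≤ m) (hmn : m ≤ n) (t : ℕ) (ht : t ≤ N) : (1 - δ) ^ t / 2 ≤ cc n m t := by
  have hnR : (4 : ℝ) * N ^ 2 + 4 ≤ n := by exact_mod_cast hn
  have hNt : (t : ℝ) ≤ N := by exact_mod_cast ht
  have hN0 : (0 : ℝ) ≤ N := by positivity
  have ht0 : (0 : ℝ) ≤ t := by positivity
  have hn0 : (0 : ℝ) < n := by nlinarith
  have htn : 4 * (t : ℝ) ≤ n := by nlinarith [sq_nonneg ((N : ℝ) - 1), sq_nonneg (N : ℝ)]
  have hmR : (m : ℝ) ≤ n := by exact_mod_cast hmn
  have hq : 2 * (t : ℝ) / n ≤ 1 / 2 := by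
    rw [div_le_iff₀ hn0]
    linarith
  have hq0 : 0 ≤ 2 * (t : ℝ) / n := by positivity
  have h1 : ((1 - δ) * (1 + -(2 * t / n))) ^ t ≤ cc n m t := by
    unfold cc
    have h2 : ((1 - δ) * (1 + -(2 * (t : ℝ) / n))) ^ t =
        ∏ _i ∈ Finset.range t, ((1 - δ) * (1 + -(2 * (t : ℝ) / n))) := by
      rw [Finset.prod_const, Finset.card_range]
    rw [h2]
    refine Finset.prod_le_prod (fun i _ => ?_) (fun i hi => ?_)
    · exact mul_nonneg (by linarith) (by linarith)
    · have hit : (i : ℝ) < t := by exact_mod_cast Finset.mem_range.1 hi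
      have hi0 : (0 : ℝ) ≤ i := by positivity
      have hni : (0 : ℝ) < (n : ℝ) - i := by linarith
      have hmt : (0 : ℝ) ≤ (m : ℝ) - t := by nlinarith
      calc (1 - δ) * (1 + -(2 * (t : ℝ) / n)) ≤ ((m : ℝ) - t) / n := by
            rw [le_div_iff₀ hn0]
            have : (1 - δ) * (1 + -(2 * (t : ℝ) / n)) * n = (1 - δ) * n - (1 - δ) * (2 * t) := by
              field_simp
              ring
            rw [this]
            nlinarith
        _ ≤ ((m : ℝ) - i) / n := by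
            apply div_le_div_of_nonneg_right _ hn0.le
            linarith
        _ ≤ ((m : ℝ) - i) / ((n : ℝ) - i) := by
            apply div_le_div_of_nonneg_left _ hni (by linarith)
            linarith
  refine le_trans ?_ h1
  rw [mul_pow, div_eq_mul_one_div]
  refine mul_le_mul_of_nonneg_left ?_ (pow_nonneg (by linarith) t)
  have h3 := one_add_mul_le_pow (show (-2 : ℝ) ≤ -(2 * (t : ℝ) / n) by linarith) t
  refine le_trans ?_ h3
  have h4 : (t : ℝ) * (2 * t / n) ≤ 1 / 2 := by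
    rw [← mul_div_assoc, div_le_iff₀ hn0]
    nlinarith
  linarith

theorem taskA3 : TaskA3 := by
  intro N δ hδ0 hδ
  obtain ⟨n0, hn0⟩ := exists_nat_ge (4 / δ)
  let n := max n0 (4 * N ^ 2 + 4)
  have hn1 : 4 * N ^ 2 + 4 ≤ n := le_max_right _ _
  have hn2 : n0 ≤ n := le_max_left _ _
  have hn2R : (n0 : ℝ) ≤ n := by exact_mod_cast hn2
  have hδn : 4 ≤ δ * n := by
    have : 4 / δ ≤ n := le_trans hn0 hn2R
    rw [div_le_iff₀ hδ0] at this
    linarith
  have hnpos : (0 : ℝ) < n := by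
    have : 0 < n := by omega
    exact_mod_cast this
  let r := ⌊δ * n⌋₊
  have hr1 : (r : ℝ) ≤ δ * n := Nat.floor_le (by positivity)
  have hr2 : δ * n < r + 1 := Nat.lt_floor_add_one _
  have hr3 : δ * n / 2 ≤ r := by linarith
  have hrn : r ≤ n := by
    have : (r : ℝ) ≤ n := by nlinarith
    exact_mod_cast this
  have hr0 : (0 : ℝ) < r := by linarith
  have hr0' : 0 < r := by exact_mod_cast hr0
  have hcast : ((n - r : ℕ) : ℝ) = (n : ℝ) - r := by
    rw [Nat.cast_sub hrn]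
  refine ⟨n, n - r, ?_, Nat.sub_le _ _, ?_, ?_⟩
  · nlinarith [Nat.zero_le N, sq_nonneg N]
  · intro t ht
    refine a3_cc N n (n - r) δ hδ0 hδ hn1 ?_ (Nat.sub_le _ _) t ht
    rw [hcast]
    nlinarith
  · refine le_trans (a3_hh n (n - r) (by omega)) ?_
    rw [hcast]
    have h1 : (n : ℝ) - (n - r) = r := by ring
    rw [h1, ← Real.log_div hnpos.ne' hr0.ne']
    have h2 : (n : ℝ) / r ≤ 2 / δ := by
      rw [div_le_div_iff₀ hr0 hδ0]
      linarith
    refine le_trans (Real.log_le_log (by positivity) h2) ?_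
    have h3 : (2 : ℝ) / δ = 2 * (1 / δ) := by ring
    rw [h3, Real.log_mul (by norm_num) (by positivity)]
    have := Real.log_two_lt_d9
    linarith

end Pool.Agent.H889R3.SA
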